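import Pool.Agent.Q32.ThF

/-!
# MP_f4dda6_al: a non-confined subgroup of `F` whose Schreier graph has no close copies of balls

`H` is the pointwise stabilizer of a sparse set `C ⊂ (0,1)` accumulating only at `1`; it is
non-confined, and for every finite generating set and every `K` the ball of radius `K n` about the
root of its Schreier graph contains no copy of the ball `B_F(n)`, for all large `n`.
-/

namespace Pool.Agent.Results.MP_f4dda6_al.NoCloseCopies

open Q32 Q32.ThF Q32.Sch Filter Topology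

/-- A dense sequence in `(0,1)`. -/
noncomputable def q0 : ℕ → Set.Ioo (0 : ℝ) 1 :=
  haveI : Nonempty (Set.Ioo (0 : ℝ) 1) := ⟨⟨1 / 2, by norm_num⟩⟩
  TopologicalSpace.denseSeq (Set.Ioo (0 : ℝ) 1)

/-- A dense sequence in `(0,1)`, as points of `[0,1]`. -/
noncomputable def q (j : ℕ) : U := ⟨q0 j, Set.Ioo_subset_Icc_self (q0 j).2⟩

theorem exists_moved {f : F} (hf : f ≠ 1) : ∃ j, ap f (q j) ≠ q j := by
  have hx : ∃ x : U, ap f x ≠ x := by
    by_contra h
    push Not at h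
    apply hf
    apply Subtype.ext
    apply RelIso.ext
    intro x
    exact h x
  obtain ⟨x, hx⟩ := hx
  have hx0 : (0 : ℝ) < x := by
    rcases (x.2.1).lt_or_eq with h | h
    · exact h
    · exfalso
      apply hx
      have : x = ⟨0, by simp⟩ := Subtype.ext h.symm
      rw [this]
      exact map_zero' _
  have hx1 : (x : ℝ) < 1 := by
    rcases (x.2.2).lt_or_eq with h | h
    · exact h
    · exfalso
      apply hx
      have : x = ⟨1, by simp⟩ := Subtype.ext h
      rw [this]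
      exact map_one' _
  let ι : Set.Ioo (0 : ℝ) 1 → U := fun y => ⟨y, Set.Ioo_subset_Icc_self y.2⟩
  have hι : Continuous ι := by fun_prop
  have hcont : Continuous fun y => ap f (ι y) := (OrderIso.continuous (f : U ≃o U)).comp hι
  have hopen : IsOpen {y | ap f (ι y) ≠ ι y} := isOpen_ne_fun hcont hι
  have hne : {y | ap f (ι y) ≠ ι y}.Nonempty := ⟨⟨x, hx0, hx1⟩, hx⟩
  haveI : Nonempty (Set.Ioo (0 : ℝ) 1) := ⟨⟨1 / 2, by norm_num⟩⟩
  obtain ⟨j, hj⟩ := (TopologicalSpace.denseRange_denseSeq (Set.Ioo (0 : ℝ) 1)).exists_mem_open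
    hopen hne
  exact ⟨j, hj⟩

theorem exists_D (k : ℕ) : ∃ D : ℕ, ∀ j < k, 1 - (ap (h ^ D) (q j) : ℝ) ≤ 1 / 2 ^ (k ^ 3) := by
  have h1 : ∀ j ∈ Finset.range k, ∀ᶠ D : ℕ in atTop,
      1 - (ap (h ^ D) (q j) : ℝ) ≤ 1 / 2 ^ (k ^ 3) := by
    intro j _
    have hq0 : (0 : ℝ) < q j := (q0 j).2.1
    have hq1 : (q j : ℝ) < 1 := (q0 j).2.2
    have ht : Tendsto (fun D : ℕ => (1 - (q j : ℝ) / 2) ^ D) atTop (𝓝 0) :=
      tendsto_pow_atTop_nhds_zero_of_lt_one (by linarith) (by linarith)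
    have hpos : (0 : ℝ) < 1 / 2 ^ (k ^ 3) := by positivity
    filter_upwards [ht.eventually (gt_mem_nhds hpos)] with D hD
    exact (one_sub_h (q j) D).trans hD.le
  obtain ⟨D, hD⟩ := ((Finset.eventually_all _).2 h1).exists
  exact ⟨D, fun j hj => hD j (Finset.mem_range.2 hj)⟩

/-- The exponents. -/
noncomputable def Dk (k : ℕ) : ℕ := (exists_D k).choose

theorem Dk_spec (k j : ℕ) (hj : j < k) :
    1 - (ap (h ^ Dk k) (q j) : ℝ) ≤ 1 / 2 ^ (k ^ 3) := (exists_D k).choose_spec j hj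

/-- The sparse set. -/
def C : Set U := {c | ∃ k j : ℕ, j < k ∧ c = ap (h ^ Dk k) (q j)}

/-- Its pointwise stabilizer. -/
def St : Subgroup F where
  carrier := {f | ∀ c ∈ C, ap f c = c}
  mul_mem' := by
    intro f g hf hg c hc
    rw [ap_mul, hg c hc, hf c hc]
  one_mem' := fun c _ => ap_one c
  inv_mem' := by
    intro f hf c hc
    have := congrArg (ap f⁻¹) (hf c hc)
    rw [ap_inv_ap] at this
    exact this.symm

theorem mem_St {f : F} : f ∈ St ↔ ∀ c ∈ C, ap f c = c := Iff.rfl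

theorem not_confined : ¬ IsConfined St := by
  rintro ⟨P, hP1, hP⟩
  have hmoved : ∀ p ∈ P, ∃ j, ap p (q j) ≠ q j := by
    intro p hp
    refine exists_moved ?_
    rintro rfl
    exact hP1 hp
  choose! J hJ using hmoved
  let k := P.sup J + 1
  obtain ⟨p, hp, hmem⟩ := hP (h ^ Dk k)⁻¹
  have hjk : J p < k := Nat.lt_succ_of_le (Finset.le_sup hp)
  have h1 := mem_St.1 hmem (ap (h ^ Dk k) (q (J p))) ⟨k, J p, hjk, rfl⟩
  rw [inv_inv, ap_mul, ap_mul, ap_inv_ap] at h1
  have h2 := congrArg (ap (h ^ Dk k)⁻¹) h1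
  rw [ap_inv_ap, ap_inv_ap] at h2
  exact hJ p hp h2

theorem pt_mono {i j : ℕ} (hij : i ≤ j) : pt i ≤ pt j := by
  change (pt i : ℝ) ≤ (pt j : ℝ)
  rw [pt_eq, pt_eq]
  have : (1 : ℝ) / 2 ^ (j + 1) ≤ 1 / 2 ^ (i + 1) :=
    one_div_le_one_div_of_le (by positivity) (pow_le_pow_right₀ (by norm_num) (by omega))
  linarith

/-- Lipschitz constants of products. -/
theorem lip_prod {S : Set F} {a : ℕ} (ha : ∀ s ∈ S, Lip (s : U ≃o U) a ∧ Lip (s⁻¹ : F) a)
    (l : List F) (hl : ∀ x ∈ l, x ∈ S ∨ x⁻¹ ∈ S) :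
    Lip ((l.prod⁻¹ : F) : U ≃o U) (a * l.length) := by
  induction l with
  | nil =>
    rw [List.prod_nil, inv_one, List.length_nil, mul_zero]
    exact lip_one
  | cons x l ih =>
    have h1 := ih fun y hy => hl y (List.mem_cons_of_mem _ hy)
    have h2 : Lip ((x⁻¹ : F) : U ≃o U) a := by
      rcases hl x List.mem_cons_self with hx | hx
      · exact (ha x hx).2
      · exact (ha _ hx).1
    rw [List.prod_cons, mul_inv_rev, List.length_cons, mul_add, mul_one]
    exact h1.mul h2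

/-- A negative answer.  There is a non-confined subgroup `H` of Thompson's group `F` such that
for every finite generating set `S` and every `K`, for all but finitely many `n`, the ball of
radius `K n` about the root of `Γ(F,H)` contains no copy of the ball `B_F(n)`. -/
theorem result : ∃ H : Subgroup F, ¬ IsConfined H ∧
    ∀ S : Set F, S.Finite → Subgroup.closure S = ⊤ →
      ∀ K : ℝ, ∃ N : ℕ, ∀ n ≥ N, ∀ v : Cosets H, ¬ IsCopy S H n ⌊K * n⌋₊ v := by
  classical
  refine ⟨St, not_confined, ?_⟩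
  intro S hfin hgen K
  -- the symmetrized generating set
  have hgen' : Subgroup.closure {x : F | x ∈ S ∨ x⁻¹ ∈ S} = ⊤ := by
    rw [eq_top_iff, ← hgen]; exact Subgroup.closure_mono fun x hx => Or.inl hx
  have hinv : ∀ s ∈ {x : F | x ∈ S ∨ x⁻¹ ∈ S}, s⁻¹ ∈ {x : F | x ∈ S ∨ x⁻¹ ∈ S} := by
    rintro s (h | h)
    · exact Or.inr (by simpa using h)
    · exact Or.inl h
  -- Lipschitz constants
  choose Ls hLs using exists_lip
  obtain ⟨a, ha⟩ : ∃ a : ℕ, ∀ s ∈ S, Lip (s : U ≃o U) a ∧ Lip (s⁻¹ : F) a := by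
    refine ⟨hfin.toFinset.sup fun s => max (Ls s) (Ls s⁻¹), fun s hs => ?_⟩
    have hle : max (Ls s) (Ls s⁻¹) ≤ hfin.toFinset.sup fun s => max (Ls s) (Ls s⁻¹) :=
      Finset.le_sup (f := fun s => max (Ls s) (Ls s⁻¹)) (hfin.mem_toFinset.2 hs)
    exact ⟨(hLs s).mono ((le_max_left _ _).trans hle),
      (hLs s⁻¹).mono ((le_max_right _ _).trans hle)⟩
  set S' : Set F := {x : F | x ∈ S ∨ x⁻¹ ∈ S} with hS'
  set L : ℕ := wl S' h + wl S' b + 1 with hL
  set K1 : ℕ := ⌈K⌉₊ with hK1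
  set Q : ℕ := a * K1 + 3 with hQ
  refine ⟨512 * L ^ 3 * Q ^ 2 + L + 1, fun n hn v hcopy => ?_⟩
  have hn1 : 1 ≤ n := by omega
  have hnL : L ≤ n := by omega
  -- write `v = H g`
  have hvmem : v ∈ ball S St (coset St 1) ⌊K * n⌋₊ :=
    hcopy.1 ⟨SimpleGraph.Walk.nil, by simp⟩
  obtain ⟨p, hp⟩ := hvmem
  obtain ⟨l, hl, hlen, hv⟩ := list_of_walk S p
  rw [rmul_coset, one_mul] at hv
  set g : F := l.prod with hg
  have hlK : l.length ≤ K1 * n := by
    have h1 : l.length ≤ ⌊K * n⌋₊ := by omega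
    have h2 : ⌊K * n⌋₊ ≤ K1 * n := by
      have h3 : K * n ≤ ((K1 * n : ℕ) : ℝ) := by
        push_cast
        exact mul_le_mul_of_nonneg_right (Nat.le_ceil _) (Nat.cast_nonneg _)
      exact Nat.floor_le_of_le h3
    omega
  subst hv
  -- bumps
  set m : ℕ := n / (2 * L) with hm
  have hmL : 2 * L * m ≤ n := Nat.mul_div_le n (2 * L)
  have hmL2 : n < 2 * L * (m + 1) := by
    have := Nat.lt_mul_div_succ n (by omega : 0 < 2 * L)
    exact this
  have hbump : ∀ i ≤ m, wl S' (bump i) ≤ 2 * n := by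
    intro i hi
    have h1 : ∀ i : ℕ, wl S' (h ^ i) ≤ i * wl S' h := by
      intro i
      induction i with
      | zero => rw [pow_zero, zero_mul]; exact (wl_one S').le
      | succ i ih =>
        rw [pow_succ]
        have := wl_mul_le hgen' hinv (h ^ i) h
        rw [Nat.succ_mul]; omega
    have h2 := wl_mul_le hgen' hinv (h ^ i * b) (h ^ i)⁻¹
    have h3 := wl_mul_le hgen' hinv (h ^ i) b
    have h4 := wl_inv hgen' hinv (h ^ i)
    have h5 := h1 i
    have h6 : i * wl S' h ≤ m * L := Nat.mul_le_mul hi (by omega)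
    have h7 : 2 * L * m = 2 * (m * L) := by ring
    have h8 : wl S' (bump i) ≤ wl S' (h ^ i * b) + wl S' (h ^ i)⁻¹ := h2
    omega
  -- each bump is blocked by a point of `C`
  have hblock : ∀ i ≤ m, ∃ k j : ℕ, j < k ∧ k ^ 3 ≤ Q * n ∧
      pt i < ap g⁻¹ (ap (h ^ Dk k) (q j)) ∧ ap g⁻¹ (ap (h ^ Dk k) (q j)) < pt (i + 1) := by
    intro i hi
    have hnot : g * bump i * g⁻¹ ∉ St := by
      intro hmem
      obtain ⟨l', hl', hp', hlen'⟩ := exists_geod hgen' hinv (bump i)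
      exact not_copy (bump_ne_one i) hmem hl' hp' (by rw [hlen']; exact hbump i hi) hcopy
    rw [mem_St] at hnot
    push Not at hnot
    obtain ⟨c, ⟨k, j, hjk, rfl⟩, hc⟩ := hnot
    have hx : ap (bump i) (ap g⁻¹ (ap (h ^ Dk k) (q j))) ≠ ap g⁻¹ (ap (h ^ Dk k) (q j)) := by
      intro heq
      apply hc
      rw [ap_mul, ap_mul, heq, ap_ap_inv]
    obtain ⟨h1, h2⟩ := bump_supp hx
    refine ⟨k, j, hjk, ?_, h1, h2⟩
    -- the size estimate
    have hlip := lip_prod ha l hl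
    have hone : (ap (h ^ Dk k) (q j)) ≤ (⟨1, by simp⟩ : U) := (ap (h ^ Dk k) (q j)).2.2
    have h3 := hlip _ _ hone
    have e1 : (((l.prod⁻¹ : F) : U ≃o U) ⟨1, by simp⟩ : ℝ) = 1 := by rw [map_one']
    rw [e1] at h3
    have h4 : 1 - (ap g⁻¹ (ap (h ^ Dk k) (q j)) : ℝ) ≤
        2 ^ (a * l.length) * (1 / 2 ^ (k ^ 3)) :=
      h3.trans (mul_le_mul_of_nonneg_left (Dk_spec k j hjk) (by positivity))
    have h5 : (ap g⁻¹ (ap (h ^ Dk k) (q j)) : ℝ) < 1 - 1 / 2 ^ (i + 1 + 1) := by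
      rw [← pt_eq]; exact h2
    have h6 : (1 : ℝ) / 2 ^ (i + 1 + 1) < 2 ^ (a * l.length) * (1 / 2 ^ (k ^ 3)) := by linarith
    have h7 : (2 : ℝ) ^ (k ^ 3) < 2 ^ (a * l.length + (i + 1 + 1)) := by
      rw [mul_one_div, div_lt_div_iff₀ (by positivity) (by positivity), one_mul] at h6
      rw [pow_add]; exact h6
    have h8 : k ^ 3 < a * l.length + (i + 1 + 1) := (pow_lt_pow_iff_right₀ (by norm_num)).1 h7
    have h9 : a * l.length ≤ a * (K1 * n) := Nat.mul_le_mul_left _ hlK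
    have h10 : m ≤ n := Nat.div_le_self _ _
    have h11 : Q * n = a * (K1 * n) + 3 * n := by rw [hQ]; ring
    omega
  choose! kk jj hjk hkQ hlo hhi using hblock
  -- counting
  set κ : ℕ := Nat.findGreatest (fun k => k ^ 3 ≤ Q * n) (Q * n) with hκ
  have hκ3 : κ ^ 3 ≤ Q * n :=
    Nat.findGreatest_spec (P := fun k => k ^ 3 ≤ Q * n) (Nat.zero_le _) (by simp)
  have hkκ : ∀ i ≤ m, kk i ≤ κ := by
    intro i hi
    refine Nat.le_findGreatest ?_ (hkQ i hi)
    exact (Nat.le_self_pow (by norm_num) _).trans (hkQ i hi)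
  have hcard : (Finset.range (m + 1)).card ≤
      (Finset.range (κ + 1) ×ˢ Finset.range (κ + 1)).card := by
    refine Finset.card_le_card_of_injOn (fun i => (kk i, jj i)) ?_ ?_
    · intro i hi
      have hi' : i ≤ m := by
        have := Finset.mem_range.1 (Finset.mem_coe.1 hi); omega
      have h1 := hkκ i hi'
      have h2 := hjk i hi'
      simp only [Finset.coe_product, Set.mem_prod, Finset.mem_coe, Finset.mem_range]
      omega
    · intro i hi j hj hij
      have hi' : i ≤ m := by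
        have := Finset.mem_range.1 (Finset.mem_coe.1 hi); omega
      have hj' : j ≤ m := by
        have := Finset.mem_range.1 (Finset.mem_coe.1 hj); omega
      have e1 : kk i = kk j := congrArg Prod.fst hij
      have e2 : jj i = jj j := congrArg Prod.snd hij
      by_contra hne
      have a1 := hlo i hi'
      have a2 := hhi i hi'
      have a3 := hlo j hj'
      have a4 := hhi j hj'
      rw [← e1, ← e2] at a3 a4
      rcases Nat.lt_or_gt_of_ne hne with hlt | hlt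
      · exact absurd (a3.trans a2) (not_lt.2 (pt_mono hlt))
      · exact absurd (a1.trans a4) (not_lt.2 (pt_mono hlt))
  rw [Finset.card_range, Finset.card_product, Finset.card_range] at hcard
  -- numerical contradiction
  have hQ3 : 3 ≤ Q := by omega
  have hκ1 : 1 ≤ κ := by
    refine Nat.le_findGreatest ?_ ?_
    · have := Nat.mul_le_mul hQ3 hn1; omega
    · have := Nat.mul_le_mul hQ3 hn1
      simp only [one_pow]; omega
  have hk1 : m + 1 ≤ 4 * κ ^ 2 := by nlinarith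
  have hk2 : (m + 1) ^ 3 ≤ 64 * (Q * n) ^ 2 := by
    calc (m + 1) ^ 3 ≤ (4 * κ ^ 2) ^ 3 := Nat.pow_le_pow_left hk1 3
      _ = 64 * (κ ^ 3) ^ 2 := by ring
      _ ≤ 64 * (Q * n) ^ 2 := Nat.mul_le_mul_left _ (Nat.pow_le_pow_left hκ3 2)
  have hk3 : n ^ 3 ≤ (512 * L ^ 3 * Q ^ 2) * n ^ 2 := by
    calc n ^ 3 ≤ (2 * L * (m + 1)) ^ 3 := Nat.pow_le_pow_left hmL2.le 3
      _ = 8 * L ^ 3 * (m + 1) ^ 3 := by ring
      _ ≤ 8 * L ^ 3 * (64 * (Q * n) ^ 2) := Nat.mul_le_mul_left _ hk2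
      _ = (512 * L ^ 3 * Q ^ 2) * n ^ 2 := by ring
  have hn2 : 0 < n ^ 2 := by positivity
  have hk4 : n ≤ 512 * L ^ 3 * Q ^ 2 := by
    have : n * n ^ 2 ≤ (512 * L ^ 3 * Q ^ 2) * n ^ 2 := by
      calc n * n ^ 2 = n ^ 3 := by ring
        _ ≤ _ := hk3
    exact Nat.le_of_mul_le_mul_right this hn2
  omega

end Pool.Agent.Results.MP_f4dda6_al.NoCloseCopies
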